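import Pool.Agent.Lib.MP_7b6720_al.LB.H76.Pig
import Pool.Agent.Lib.MP_7b6720_al.INV.H96.Mix
import Pool.Agent.Lib.MP_7b6720_al.INV.H28.Gap
import Pool.Agent.Lib.MP_7b6720_al.INV.H28.Poin
import Pool.Agent.Lib.MP_7b6720_al.INV.H28.Walk
import Pool.Agent.Lib.MP_7b6720_al.INV.H44.Contr
import Pool.Agent.Lib.MP_7b6720_al.INV.H44.Even
import Pool.Agent.Lib.MP_7b6720_al.INV.H44.Fin
import Pool.Agent.Lib.MP_7b6720_al.INV.H44.Supp
import Pool.Agent.Lib.MP_7b6720_al.INV.H44.Three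
import Pool.Agent.Lib.MP_7b6720_al.INV.H52.Iter
import Pool.Agent.Lib.MP_7b6720_al.INV.H98.Gens
import Pool.Agent.Lib.MP_7b6720_al.INV.H98.Trans
import Pool.Agent.Lib.MP_7b6720_al.INV.H98.Triv

set_option autoImplicit false

/-!
# Large balls, 3: the main theorem
-/

namespace Pool.Agent.SymDiam.LB

open Equiv Finset

/-- one contraction, in natural numbers -/
theorem contr {n : ℕ} (hn : 90000 ≤ n) {A : Set (Perm (Fin n))} {W : Perm (Fin n) → ℝ} {R l : ℕ}
    (hW : Mixing n 3 W) (hWb : ∀ h, W h ≠ 0 → InBall A R h) (z : Perm (Fin n))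
    (hz : z ≠ 1) (hzb : InBall A l z) (a b : ℝ) (ha0 : 0 ≤ a) (ha : a < 1)
    (hza : (z.support.card : ℝ) ≤ a * n) (hab : 4 * a ^ 2 + 1 / 10000 ≤ b) :
    ∃ u : Perm (Fin n), u ≠ 1 ∧ InBall A (4 * l + 4 * R) u ∧ (u.support.card : ℝ) ≤ b * n := by
  have hn' : (90000 : ℝ) ≤ n := by exact_mod_cast hn
  have hlt : z.support.card < n := by
    have h1 : (z.support.card : ℝ) < n := by nlinarith
    exact_mod_cast h1
  obtain ⟨h, hh, h1, h2⟩ := H44.con H44.supp n (by omega) W hW z hz hlt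
  refine ⟨cm z h, h1, hzb.cm (hWb h hh), h2.trans ?_⟩
  have h3 : 4 * (z.support.card : ℝ) ^ 2 / (n : ℝ) ≤ 4 * a ^ 2 * n := by
    rw [div_le_iff₀ (by linarith)]
    have h4 : (z.support.card : ℝ) ^ 2 ≤ (a * n) ^ 2 := pow_le_pow_left₀ (by positivity) hza 2
    nlinarith
  have h5 : (4 * a ^ 2 + 1 / 10000) * n ≤ b * n := mul_le_mul_of_nonneg_right hab (by linarith)
  nlinarith

/-- four contractions -/
theorem contr4 {n : ℕ} (hn : 90000 ≤ n) {A : Set (Perm (Fin n))} {W : Perm (Fin n) → ℝ} {R l : ℕ}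
    (hW : Mixing n 3 W) (hWb : ∀ h, W h ≠ 0 → InBall A R h) (z : Perm (Fin n))
    (hz : z ≠ 1) (hzb : InBall A l z) (hz5 : 5 * z.support.card ≤ n) :
    ∃ u : Perm (Fin n), u ≠ 1 ∧ InBall A (256 * l + 340 * R) u ∧ 100 * u.support.card ≤ n := by
  have hn' : (90000 : ℝ) ≤ n := by exact_mod_cast hn
  have h0 : (z.support.card : ℝ) ≤ (1 / 5) * n := by
    have : (5 * z.support.card : ℝ) ≤ n := by exact_mod_cast hz5
    linarith
  obtain ⟨u1, a1, b1, c1⟩ := contr hn hW hWb z hz hzb (1 / 5) (1602 / 10000) (by norm_num)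
    (by norm_num) h0 (by norm_num)
  obtain ⟨u2, a2, b2, c2⟩ := contr hn hW hWb u1 a1 b1 (1602 / 10000) (103 / 1000) (by norm_num)
    (by norm_num) c1 (by norm_num)
  obtain ⟨u3, a3, b3, c3⟩ := contr hn hW hWb u2 a2 b2 (103 / 1000) (43 / 1000) (by norm_num)
    (by norm_num) c2 (by norm_num)
  obtain ⟨u4, a4, b4, c4⟩ := contr hn hW hWb u3 a3 b3 (43 / 1000) (1 / 100) (by norm_num)
    (by norm_num) c3 (by norm_num)
  refine ⟨u4, a4, b4.mono (by omega), ?_⟩
  have : (100 * u4.support.card : ℝ) ≤ n := by linarith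
  exact_mod_cast this

/-- from one short nonidentity element with support at most `n / 5` to the whole group -/
theorem finish {n : ℕ} (hn : 90000 ≤ n) {A : Set (Perm (Fin n))}
    (hA : alternatingGroup (Fin n) ≤ Subgroup.closure A) {W : Perm (Fin n) → ℝ} {R l : ℕ}
    (hW3 : Mixing n 3 W) (hWb : ∀ h, W h ≠ 0 → InBall A R h) (z : Perm (Fin n))
    (hz : z ≠ 1) (hzb : InBall A l z) (hz5 : 5 * z.support.card ≤ n) :
    ∀ g ∈ Subgroup.closure A, InBall A (n * (4 * (n * (256 * l + 342 * R)) + 6 * R) + 1) g := by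
  intro g hg
  obtain ⟨u, hu1, hub, hu⟩ := contr4 hn hW3 hWb z hz hzb hz5
  obtain ⟨z', hz'1, hz'2, hz'b⟩ := H52.iter (H44.con H44.supp) n hn A R W hW3 hWb u _
    hu1 hub hu
  obtain ⟨h, hh0, hh3⟩ := H44.three H44.supp n (by omega) W hW3 z' hz'1 hz'2
  have h3b := hz'b.cm (hWb h hh0)
  have htrans : ∀ e e' : Fin 3 ↪ Fin n, ∃ h, InBall A R h ∧ Maps e e' h := by
    intro e e'
    have hpos : 0 < wt W e e' := by
      refine lt_of_lt_of_le ?_ (hW3.lower 3 le_rfl e e')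
      have h1 : (1 : ℝ) / n < 1 := by
        rw [div_lt_one (by positivity)]
        exact_mod_cast (by omega : 1 < n)
      have h2 : (0 : ℝ) < (n.descFactorial 3 : ℝ) := by
        exact_mod_cast Nat.descFactorial_pos.2 (by omega)
      exact div_pos (by linarith) h2
    obtain ⟨h, h1, h2, -⟩ := exists_le_of_avg hW3 e e' hpos (fun _ => 0) 0 (by simp)
    exact ⟨h, hWb h h1, h2⟩
  refine (H44.fin H44.even n A _ R _ hA hh3 h3b htrans g hg).mono ?_
  have h6 : u.support.card * (256 * l + 340 * R + 2 * R) ≤ n * (256 * l + 342 * R) :=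
    Nat.mul_le_mul (by omega) (by omega)
  have h7 : 4 * (u.support.card * (256 * l + 340 * R + 2 * R)) + 4 * R + 2 * R ≤
      4 * (n * (256 * l + 342 * R)) + 6 * R := by omega
  have h8 := Nat.mul_le_mul_left n h7
  omega

theorem logs {n lam : ℕ} (hn : 1 ≤ n) (hlam : lam = Nat.log 2 n) :
    2 ^ lam ≤ n ∧ n < 2 ^ (lam + 1) := by
  subst hlam
  exact ⟨Nat.pow_log_le_self 2 (by omega), Nat.lt_pow_succ_log_self (by omega) n⟩

/-- the hypothesis forces `n` to be large -/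
theorem vac {n : ℕ} (hn : 1 ≤ n) (X : Finset (Perm (Fin n)))
    (hX : (Nat.log 2 n) ^ (16 * n) ≤ X.card) (h2 : 2 ≤ Nat.log 2 n) : 64 ≤ Nat.log 2 n := by
  obtain ⟨-, h4⟩ := logs hn rfl
  set lam := Nat.log 2 n with hlam
  by_contra hcon
  push Not at hcon
  have h5 : X.card ≤ n ^ n := by
    refine le_trans (card_le_univ X) ?_
    rw [Fintype.card_perm, Fintype.card_fin]
    exact Nat.factorial_le_pow n
  have h6 : (lam ^ 16) ^ n ≤ n ^ n := by rw [← pow_mul]; exact hX.trans h5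
  have h7 : lam ^ 16 ≤ n := le_of_pow_le_pow_left₀ (by omega) (by omega) h6
  have h8 : lam ^ 16 < 2 ^ (lam + 1) := lt_of_le_of_lt h7 h4
  have h9 : 2 ^ (lam + 1) ≤ lam ^ 16 := by
    rcases Nat.lt_or_ge lam 16 with h | h
    · calc 2 ^ (lam + 1) ≤ 2 ^ 16 := Nat.pow_le_pow_right (by omega) (by omega)
        _ ≤ lam ^ 16 := Nat.pow_le_pow_left h2 _
    · calc 2 ^ (lam + 1) ≤ 2 ^ 64 := Nat.pow_le_pow_right (by omega) (by omega)
        _ = (16 : ℕ) ^ 16 := by norm_num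
        _ ≤ lam ^ 16 := Nat.pow_le_pow_left h _
  omega

end Pool.Agent.SymDiam.LB
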