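import Pool.Agent.Lib.MP_7b6720_al.INV.H44.Tup

set_option autoImplicit false

/-!
# Large balls, 1: growth of the fixed set of a centraliser

If `g` commutes with all the conjugates `w_i` of `w` and fixes the set `T` pointwise, then it fixes
pointwise everything that can be reached from `T` by the `w_i`.
-/

namespace Pool.Agent.SymDiam.LB

open Equiv Finset Pool.Agent.SymDiam.H44

/-- averaging, without condition -/
theorem avg {n k : ℕ} {W : Perm (Fin n) → ℝ} (hW : Mixing n k W) (f : Perm (Fin n) → ℝ) (T : ℝ)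
    (hT : T ≤ ∑ h, W h * f h) : ∃ h, W h ≠ 0 ∧ T ≤ f h := by
  by_contra hcon
  push Not at hcon
  have hex : ∃ h, W h ≠ 0 := by
    by_contra hno
    push Not at hno
    have := hW.sum_eq
    simp [hno] at this
  obtain ⟨h0, hh0⟩ := hex
  have hlt : ∑ h, W h * f h < ∑ h, W h * T := by
    refine Finset.sum_lt_sum (fun h _ => ?_) ⟨h0, Finset.mem_univ _, ?_⟩
    · by_cases hz : W h = 0
      · simp [hz]
      · exact mul_le_mul_of_nonneg_left (hcon h hz).le (hW.nonneg h)
    · exact mul_lt_mul_of_pos_left (hcon h0 hh0) (lt_of_le_of_ne (hW.nonneg h0) (Ne.symm hh0))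
  rw [← Finset.sum_mul, hW.sum_eq, one_mul] at hlt
  exact absurd hT (not_le.2 hlt)

/-- the weight of the event that the conjugate of `w` maps `x` to `z` -/
theorem move {n : ℕ} (hn : 2 ≤ n) {W : Perm (Fin n) → ℝ} (hW : Mixing n 3 W) (w : Perm (Fin n))
    (x z : Fin n) (hxz : x ≠ z) :
    (w.support.card : ℝ) / (n : ℝ) ^ 2 ≤ ∑ h, if cj w h x = z then W h else 0 := by
  have hn' : (2 : ℝ) ≤ n := by exact_mod_cast hn
  have h1 : ∀ h : Perm (Fin n), (∑ y ∈ w.support, if h x = y ∧ h z = w y then W h else 0) ≤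
      if cj w h x = z then W h else 0 := by
    intro h
    by_cases hc : cj w h x = z
    · rw [if_pos hc]
      calc (∑ y ∈ w.support, if h x = y ∧ h z = w y then W h else 0)
          ≤ ∑ y ∈ w.support, if h x = y then W h else 0 := by
            refine sum_le_sum fun y _ => ?_
            by_cases h2 : h x = y
            · simp only [h2, true_and, if_true]
              split_ifs
              · exact le_rfl
              · exact hW.nonneg h
            · simp [h2]
        _ = if h x ∈ w.support then W h else 0 := by rw [sum_ite_eq]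
        _ ≤ W h := by
            split_ifs
            · exact le_rfl
            · exact hW.nonneg h
    · rw [if_neg hc]
      refine (sum_eq_zero fun y _ => ?_).le
      rw [if_neg]
      rintro ⟨h2, h3⟩
      apply hc
      unfold cj
      rw [Perm.mul_apply, Perm.mul_apply, h2, ← h3]
      exact Equiv.symm_apply_apply h z
  have h2 : ∀ y ∈ w.support, (1 : ℝ) / (n : ℝ) ^ 2 ≤
      ∑ h, if h x = y ∧ h z = w y then W h else 0 := by
    intro y hy
    have hyw : y ≠ w y := (Perm.mem_support.1 hy).symm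
    have h3 := hW.lower 2 (by omega) (duo x z hxz) (duo y (w y) hyw)
    unfold wt at h3
    simp_rw [maps_duo] at h3
    refine le_trans (le_of_eq ?_) h3
    have h4 : ((n.descFactorial 2 : ℕ) : ℝ) = (n : ℝ) * ((n : ℝ) - 1) := by
      have : n.descFactorial 2 = (n - 1) * n := by
        simp [Nat.descFactorial_succ]
      rw [this, Nat.cast_mul, Nat.cast_sub (by omega)]
      push_cast; ring
    rw [h4]
    have h5 : (n : ℝ) ≠ 0 := by linarith
    have h6 : (n : ℝ) - 1 ≠ 0 := by intro h; linarith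
    field_simp
  calc (w.support.card : ℝ) / (n : ℝ) ^ 2 = ∑ y ∈ w.support, (1 : ℝ) / (n : ℝ) ^ 2 := by
        rw [sum_const, nsmul_eq_mul]; ring
    _ ≤ ∑ y ∈ w.support, ∑ h, if h x = y ∧ h z = w y then W h else 0 := sum_le_sum h2
    _ = ∑ h, ∑ y ∈ w.support, if h x = y ∧ h z = w y then W h else 0 := sum_comm
    _ ≤ ∑ h, if cj w h x = z then W h else 0 := sum_le_sum fun h _ => h1 h

/-- some short conjugate of `w` moves many points of `S` out of `S` -/
theorem grow {n : ℕ} (hn : 2 ≤ n) {W : Perm (Fin n) → ℝ} (hW : Mixing n 3 W) (w : Perm (Fin n))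
    (S : Finset (Fin n)) :
    ∃ h, W h ≠ 0 ∧ (w.support.card : ℝ) / (n : ℝ) ^ 2 * ((S.card : ℝ) * (Sᶜ.card : ℝ)) ≤
      ((S.filter fun x => cj w h x ∈ Sᶜ).card : ℝ) := by
  refine avg hW (fun h => ((S.filter fun x => cj w h x ∈ Sᶜ).card : ℝ)) _ ?_
  have h1 : ∀ h : Perm (Fin n), W h * ((S.filter fun x => cj w h x ∈ Sᶜ).card : ℝ) =
      ∑ x ∈ S, ∑ z ∈ Sᶜ, if cj w h x = z then W h else 0 := by
    intro h
    rw [card_filter]
    push_cast
    rw [mul_sum]
    refine sum_congr rfl fun x _ => ?_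
    rw [sum_ite_eq]
    split_ifs <;> simp
  simp_rw [h1]
  rw [sum_comm]
  calc (w.support.card : ℝ) / (n : ℝ) ^ 2 * ((S.card : ℝ) * (Sᶜ.card : ℝ))
      = ∑ x ∈ S, ∑ z ∈ Sᶜ, (w.support.card : ℝ) / (n : ℝ) ^ 2 := by
        rw [sum_const, sum_const, nsmul_eq_mul, nsmul_eq_mul]; ring
    _ ≤ ∑ x ∈ S, ∑ z ∈ Sᶜ, ∑ h, (if cj w h x = z then W h else 0) := by
        refine sum_le_sum fun x hx => sum_le_sum fun z hz => move hn hW w x z ?_
        rintro rfl
        exact (mem_compl.1 hz) hx
    _ = ∑ x ∈ S, ∑ h, ∑ z ∈ Sᶜ, (if cj w h x = z then W h else 0) :=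
        sum_congr rfl fun x _ => sum_comm

/-- one step of the growth -/
theorem step {n : ℕ} (hn : 2 ≤ n) {W : Perm (Fin n) → ℝ} (hW : Mixing n 3 W) (w : Perm (Fin n))
    (hw : (n : ℝ) ≤ 5 * (w.support.card : ℝ)) (S : Finset (Fin n)) (lam q : ℝ)
    (hS : (Sᶜ.card : ℝ) * q ≤ lam * (S.card : ℝ)) (hq : 0 ≤ q) (hS1 : 1 ≤ S.card) :
    ∃ h, W h ≠ 0 ∧ (((S ∪ S.image (cj w h))ᶜ).card : ℝ) * (q * (6 / 5)) ≤
      lam * ((S ∪ S.image (cj w h)).card : ℝ) := by
  obtain ⟨h, hh, hc⟩ := grow hn hW w S
  refine ⟨h, hh, ?_⟩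
  set S' := S ∪ S.image (cj w h) with hS'
  have hn' : (2 : ℝ) ≤ n := by exact_mod_cast hn
  have hcomp : ∀ U : Finset (Fin n), (Uᶜ.card : ℝ) = n - U.card := by
    intro U
    rw [card_compl, Fintype.card_fin, Nat.cast_sub (by
      have := card_le_univ U
      rwa [Fintype.card_fin] at this)]
  set a : ℝ := (S.card : ℝ) with ha
  set a' : ℝ := (S'.card : ℝ) with ha'
  have ha1 : (1 : ℝ) ≤ a := by rw [ha]; exact_mod_cast hS1
  have han : a ≤ n := by
    have := card_le_univ S
    rw [Fintype.card_fin] at this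
    rw [ha]; exact_mod_cast this
  -- `a' ≥ a + a (n - a) / (5 n)`
  have hgr : a + a * (n - a) / (5 * n) ≤ a' := by
    have h1 : (S.card + (S.filter fun x => cj w h x ∈ Sᶜ).card) ≤ S'.card := by
      have h2 : S ∪ (S.filter fun x => cj w h x ∈ Sᶜ).image (cj w h) ⊆ S' := by
        rw [hS']
        exact union_subset_union_right (image_subset_image (filter_subset _ _))
      refine le_trans ?_ (card_le_card h2)
      rw [card_union_of_disjoint, card_image_of_injective _ (cj w h).injective]
      rw [disjoint_left]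
      intro x hx hx'
      rw [mem_image] at hx'
      obtain ⟨y, hy, rfl⟩ := hx'
      exact (mem_compl.1 (mem_filter.1 hy).2) hx
    have h3 : a + ((S.filter fun x => cj w h x ∈ Sᶜ).card : ℝ) ≤ a' := by
      rw [ha, ha']; exact_mod_cast h1
    refine le_trans ?_ h3
    have h4 : a * (n - a) / (5 * n) ≤
        (w.support.card : ℝ) / (n : ℝ) ^ 2 * ((S.card : ℝ) * (Sᶜ.card : ℝ)) := by
      rw [hcomp S]
      rw [← ha]
      have h5 : (1 : ℝ) / (5 * n) ≤ (w.support.card : ℝ) / (n : ℝ) ^ 2 := by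
        rw [div_le_div_iff₀ (by positivity) (by positivity)]
        nlinarith
      have h6 : 0 ≤ a * (n - a) := mul_nonneg (by linarith) (by linarith)
      calc a * (n - a) / (5 * n) = 1 / (5 * n) * (a * (n - a)) := by ring
        _ ≤ _ := mul_le_mul_of_nonneg_right h5 h6
    linarith
  have ha'1 : 1 ≤ a' := by
    have : 0 ≤ a * (n - a) / (5 * n) :=
      div_nonneg (mul_nonneg (by linarith) (by linarith)) (by linarith)
    linarith
  rw [hcomp S'] 
  rw [hcomp S] at hS
  rw [← ha'] 
  rw [← ha] at hS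
  -- `(n - a') (1 + c) a ≤ (n - a) a'`
  have key : (n - a') * (6 / 5) * a ≤ (n - a) * a' := by
    have h7 : a * (n - a) ≤ 5 * n * (a' - a) := by
      have h8 : a * (n - a) / (5 * n) ≤ a' - a := by linarith
      rw [div_le_iff₀ (by positivity)] at h8
      linarith
    -- (n - a) a' - (n - a') a = n (a' - a)
    -- (n - a') a / 5 ≤ n (a' - a)
    have h9 : (n - a') * a ≤ 5 * (n * (a' - a)) := by
      have h10 : (n - a') * a ≤ (n - a) * a := by
        apply mul_le_mul_of_nonneg_right _ (by linarith)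
        have : 0 ≤ a * (n - a) / (5 * n) :=
          div_nonneg (mul_nonneg (by linarith) (by linarith)) (by linarith)
        linarith
      nlinarith
    nlinarith
  have h11 : (n - a') * (6 / 5) * a * q ≤ lam * a * a' := by
    calc (n - a') * (6 / 5) * a * q ≤ (n - a) * a' * q := mul_le_mul_of_nonneg_right key hq
      _ = ((n - a) * q) * a' := by ring
      _ ≤ (lam * a) * a' := mul_le_mul_of_nonneg_right hS (by linarith)
  have h12 : ((n - a') * (q * (6 / 5))) * a ≤ (lam * a') * a := by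
    calc ((n - a') * (q * (6 / 5))) * a = (n - a') * (6 / 5) * a * q := by ring
      _ ≤ lam * a * a' := h11
      _ = (lam * a') * a := by ring
  exact le_of_mul_le_mul_right h12 (by linarith)

/-- after `k` steps -/
theorem steps {n : ℕ} (hn : 2 ≤ n) {W : Perm (Fin n) → ℝ} (hW : Mixing n 3 W) (w : Perm (Fin n))
    (hw : (n : ℝ) ≤ 5 * (w.support.card : ℝ)) (T : Finset (Fin n)) (lam : ℝ)
    (hT : (n : ℝ) ≤ lam * (T.card : ℝ)) (hT1 : 1 ≤ T.card) (k : ℕ) :
    ∃ (hs : Fin k → Perm (Fin n)) (S : Finset (Fin n)), (∀ i, W (hs i) ≠ 0) ∧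
      (∀ g : Perm (Fin n), (∀ x ∈ T, g x = x) →
        (∀ i, g * cj w (hs i) = cj w (hs i) * g) → ∀ x ∈ S, g x = x) ∧
      1 ≤ S.card ∧ (Sᶜ.card : ℝ) * (6 / 5) ^ k ≤ lam * (S.card : ℝ) := by
  induction k with
  | zero =>
      refine ⟨Fin.elim0, T, fun i => i.elim0, fun g hg _ => hg, hT1, ?_⟩
      rw [pow_zero, mul_one]
      refine le_trans ?_ hT
      have := card_le_univ (Tᶜ)
      rw [Fintype.card_fin] at this
      exact_mod_cast this
  | succ k ih =>
      obtain ⟨hs, S, h1, h2, h3, h4⟩ := ih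
      obtain ⟨h, hh, hc⟩ := step hn hW w hw S lam _ h4 (by positivity) h3
      refine ⟨Fin.cons h hs, S ∪ S.image (cj w h), ?_, ?_, ?_, ?_⟩
      · intro i
        refine Fin.cases ?_ (fun j => ?_) i
        · simpa using hh
        · simpa using h1 j
      · intro g hg hcomm
        have h5 := h2 g hg (fun i => by simpa using hcomm i.succ)
        have h6 : g * cj w h = cj w h * g := by simpa using hcomm 0
        intro x hx
        rcases mem_union.1 hx with hx | hx
        · exact h5 x hx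
        · obtain ⟨y, hy, rfl⟩ := mem_image.1 hx
          have h7 := congrArg (fun p : Perm (Fin n) => p y) h6
          simp only [Perm.mul_apply] at h7
          rw [h7, h5 y hy]
      · exact h3.trans (card_le_card subset_union_left)
      · rw [pow_succ]
        exact hc

end Pool.Agent.SymDiam.LB
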