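import Pool.Agent.Lib.MP_7b6720_al.LB.H76.Grow

set_option autoImplicit false

/-!
# Large balls, 2: pigeonhole and one commutator step
-/

namespace Pool.Agent.SymDiam.LB

open Equiv Finset Pool.Agent.SymDiam.H44

/-- almost invariant subsets of the support, of every size -/
theorem almost {n : ℕ} (w : Perm (Fin n)) (m : ℕ) (hm : m ≤ w.support.card) :
    ∃ D : Finset (Fin n), D ⊆ w.support ∧ D.card = m ∧ (D.filter fun x => w x ∉ D).card ≤ 1 := by
  induction m with
  | zero => exact ⟨∅, by simp, by simp, by simp⟩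
  | succ m ih =>
      obtain ⟨D, h1, h2, h3⟩ := ih (by omega)
      by_cases hx : ∃ x ∈ D, w x ∉ D
      · obtain ⟨x, hxD, hwx⟩ := hx
        have hone : ∀ y ∈ D, w y ∉ D → y = x := fun y hy hwy =>
          card_le_one.1 h3 y (mem_filter.2 ⟨hy, hwy⟩) x (mem_filter.2 ⟨hxD, hwx⟩)
        refine ⟨insert (w x) D, ?_, ?_, ?_⟩
        · rw [insert_subset_iff]
          exact ⟨Perm.apply_mem_support.2 (h1 hxD), h1⟩
        · rw [card_insert_of_notMem hwx, h2]
        · refine (card_le_card (t := {w x}) ?_).trans (by simp)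
          intro y hy
          rw [mem_filter, mem_insert, mem_insert, not_or] at hy
          obtain ⟨hy1, hy2, hy3⟩ := hy
          rcases hy1 with rfl | hy1
          · simp
          · exact absurd (congrArg w (hone y hy1 hy3)) hy2
      · push Not at hx
        obtain ⟨y, hy, hyD⟩ : ∃ y ∈ w.support, y ∉ D := by
          by_contra hcon
          push Not at hcon
          have := card_le_card (show w.support ⊆ D from hcon)
          omega
        refine ⟨insert y D, ?_, ?_, ?_⟩
        · rw [insert_subset_iff]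
          exact ⟨hy, h1⟩
        · rw [card_insert_of_notMem hyD, h2]
        · refine (card_le_card (t := {y}) ?_).trans (by simp)
          intro z hz
          rw [mem_filter, mem_insert, mem_insert, not_or] at hz
          obtain ⟨hz1, hz2, hz3⟩ := hz
          rcases hz1 with rfl | hz1
          · simp
          · exact absurd (hx z hz1) hz3

/-- pigeonhole: two elements of a large set agree on the points of `D` and on the sets `F i` -/
theorem pigeon {n k : ℕ} (X : Finset (Perm (Fin n))) (D : Finset (Fin n))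
    (F : Fin k → Finset (Fin n)) (hX : n ^ D.card * 2 ^ (n * k) < X.card) :
    ∃ x ∈ X, ∃ y ∈ X, x⁻¹ * y ≠ 1 ∧ (∀ p ∈ D, (x⁻¹ * y) p = p) ∧
      ∀ i, ∀ p ∈ F i, (x⁻¹ * y) p ∈ F i := by
  classical
  set f : Perm (Fin n) → ((D → Fin n) × (Fin k → Finset (Fin n))) :=
    fun x => (fun p => x p, fun i => (F i).image x) with hf
  have hcard : (univ : Finset ((D → Fin n) × (Fin k → Finset (Fin n)))).card =
      n ^ D.card * 2 ^ (n * k) := by
    rw [card_univ, Fintype.card_prod, Fintype.card_fun, Fintype.card_fun, Fintype.card_finset,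
      Fintype.card_fin, Fintype.card_coe, Fintype.card_fin, ← pow_mul]
  obtain ⟨x, hx, y, hy, hne, hxy⟩ := exists_ne_map_eq_of_card_lt_of_maps_to
    (s := X) (t := univ) (f := f) (by rw [hcard]; exact hX) (fun _ _ => mem_univ _)
  refine ⟨x, hx, y, hy, ?_, ?_, ?_⟩
  · intro h
    exact hne (inv_mul_eq_one.1 h)
  · intro p hp
    have h1 := congrFun (congrArg Prod.fst hxy) ⟨p, hp⟩
    simp only [hf] at h1
    rw [Perm.mul_apply, ← h1]
    exact Equiv.symm_apply_apply x p
  · intro i p hp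
    have h1 := congrFun (congrArg Prod.snd hxy) i
    simp only [hf] at h1
    have h2 : y p ∈ (F i).image x := by
      rw [h1]; exact mem_image_of_mem _ hp
    obtain ⟨q, hq, hqp⟩ := mem_image.1 h2
    rw [Perm.mul_apply, ← hqp]
    have h3 : x⁻¹ (x q) = q := Equiv.symm_apply_apply x q
    rw [h3]; exact hq

/-- the commutator gains fixed points -/
theorem comm_supp {n m : ℕ} (w g : Perm (Fin n)) (D : Finset (Fin n)) (hD : D ⊆ w.support)
    (hDm : D.card = m) (hD1 : (D.filter fun x => w x ∉ D).card ≤ 1)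
    (hF : ∀ p ∈ univ.filter (fun p => w p = p), g p ∈ univ.filter (fun p => w p = p))
    (hgD : ∀ p ∈ D, g p = p) :
    (w⁻¹ * g⁻¹ * w * g).support.card + m ≤ w.support.card + 1 := by
  have h1 : (w⁻¹ * g⁻¹ * w * g).support ⊆ w.support \ (D.filter fun x => w x ∈ D) := by
    intro p hp
    rw [mem_sdiff, mem_filter]
    rw [Perm.mem_support] at hp
    refine ⟨?_, ?_⟩
    · rw [Perm.mem_support]
      intro hwp
      apply hp
      have h2 := hF p (mem_filter.2 ⟨mem_univ _, hwp⟩)
      rw [mem_filter] at h2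
      simp only [Perm.mul_apply]
      rw [h2.2]
      have h3 : g⁻¹ (g p) = p := Equiv.symm_apply_apply g p
      rw [h3, Perm.inv_eq_iff_eq, hwp]
    · rintro ⟨h2, h3⟩
      apply hp
      simp only [Perm.mul_apply]
      rw [hgD p h2]
      have h4 : g⁻¹ (w p) = w p := by
        rw [Perm.inv_eq_iff_eq, hgD _ h3]
      rw [h4]
      exact Equiv.symm_apply_apply w p
  have h2 := card_le_card h1
  have h3 : (D.filter fun x => w x ∈ D) ⊆ w.support := (filter_subset _ _).trans hD
  rw [card_sdiff_of_subset h3] at h2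
  have h4 := card_le_card h3
  have h5 := card_filter_add_card_filter_not (s := D) (fun x => w x ∈ D)
  omega

/-- one commutator step -/
theorem cstep {n : ℕ} (hn : 2 ≤ n) {A : Set (Perm (Fin n))} {W : Perm (Fin n) → ℝ} {R L l : ℕ}
    (hW : Mixing n 3 W) (hWb : ∀ h, W h ≠ 0 → InBall A R h) (X : Finset (Perm (Fin n)))
    (hXb : ∀ x ∈ X, InBall A L x) (m k : ℕ) (hm1 : 1 ≤ m) (hmn : m ≤ n)
    (hk : 5 * ((n : ℝ) / m) ≤ (6 / 5) ^ k)
    (hX : n ^ ((k + 1) * m) * 2 ^ (n * k) < X.card)
    (w : Perm (Fin n)) (hwb : InBall A l w) (hw : n ≤ 5 * w.support.card)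
    (hwm : m ≤ w.support.card) :
    ∃ u : Perm (Fin n), u ≠ 1 ∧ InBall A (2 * l + 4 * R + 4 * L) u ∧
      (5 * u.support.card ≤ n ∨ u.support.card + m ≤ w.support.card + 1) := by
  classical
  obtain ⟨T, hT⟩ : ∃ T : Finset (Fin n), T.card = m :=
    (exists_subset_card_eq (s := (univ : Finset (Fin n))) (by simpa using hmn)).imp
      fun T hT => hT.2
  have hm' : (1 : ℝ) ≤ m := by exact_mod_cast hm1
  have hn' : (2 : ℝ) ≤ n := by exact_mod_cast hn
  obtain ⟨hs, S, h1, h2, h3, h4⟩ := steps hn hW w (by exact_mod_cast hw) T ((n : ℝ) / m)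
    (by rw [hT, div_mul_cancel₀]; positivity) (by omega) k
  -- the complement of `S` is small
  have hSc : 5 * Sᶜ.card ≤ n := by
    have h5 : (S.card : ℝ) ≤ n := by
      have := card_le_univ S
      rw [Fintype.card_fin] at this
      exact_mod_cast this
    have h6 : (Sᶜ.card : ℝ) * (5 * ((n : ℝ) / m)) ≤ (n : ℝ) / m * n :=
      calc (Sᶜ.card : ℝ) * (5 * ((n : ℝ) / m)) ≤ (Sᶜ.card : ℝ) * (6 / 5) ^ k :=
            mul_le_mul_of_nonneg_left hk (by positivity)
        _ ≤ (n : ℝ) / m * S.card := h4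
        _ ≤ (n : ℝ) / m * n := mul_le_mul_of_nonneg_left h5 (by positivity)
    have h7 : 5 * (Sᶜ.card : ℝ) ≤ n := by
      have h8 : (5 * (Sᶜ.card : ℝ)) * ((n : ℝ) / m) ≤ n * ((n : ℝ) / m) := by linarith
      exact le_of_mul_le_mul_right h8 (by positivity)
    exact_mod_cast h7
  -- the almost invariant sets
  have hsup : ∀ i, (cj w (hs i)).support.card = w.support.card := by
    intro i
    unfold cj
    have := Perm.card_support_conj (σ := (hs i)⁻¹) (τ := w)
    simpa using this
  have hal : ∀ i, ∃ D : Finset (Fin n), D ⊆ (cj w (hs i)).support ∧ D.card = m ∧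
      (D.filter fun x => cj w (hs i) x ∉ D).card ≤ 1 := fun i =>
    almost (cj w (hs i)) m (by rw [hsup]; exact hwm)
  choose D hD1 hD2 hD3 using hal
  set E : Finset (Fin n) := T ∪ univ.biUnion D with hE
  have hEc : E.card ≤ (k + 1) * m := by
    have h5 : (univ.biUnion D).card ≤ k * m := by
      refine card_biUnion_le.trans ?_
      rw [sum_congr rfl fun i _ => hD2 i, sum_const, card_univ, Fintype.card_fin, smul_eq_mul]
    calc E.card ≤ T.card + (univ.biUnion D).card := card_union_le _ _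
      _ ≤ T.card + k * m := Nat.add_le_add_left h5 _
      _ = (k + 1) * m := by rw [hT]; ring
  have hXE : n ^ E.card * 2 ^ (n * k) < X.card := by
    refine lt_of_le_of_lt (Nat.mul_le_mul_right _ ?_) hX
    exact Nat.pow_le_pow_right (by omega) hEc
  obtain ⟨x, hx, y, hy, hne, hfix, hF⟩ := pigeon X E
    (fun i => univ.filter fun p => cj w (hs i) p = p) hXE
  set g : Perm (Fin n) := x⁻¹ * y with hg
  have hgb : InBall A (2 * L) g := ((hXb x hx).inv.mul (hXb y hy)).mono (by omega)
  by_cases hcon : ∀ i, g * cj w (hs i) = cj w (hs i) * g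
  · -- `g` itself has small support
    refine ⟨g, hne, hgb.mono (by omega), Or.inl ?_⟩
    have h5 := h2 g (fun p hp => hfix p (by rw [hE]; exact mem_union_left _ hp)) hcon
    have h6 : g.support ⊆ Sᶜ := by
      intro p hp
      rw [mem_compl]
      intro hpS
      exact (Perm.mem_support.1 hp) (h5 p hpS)
    have h7 := card_le_card h6
    omega
  · push Not at hcon
    obtain ⟨i, hi⟩ := hcon
    refine ⟨(cj w (hs i))⁻¹ * g⁻¹ * cj w (hs i) * g, ?_, ?_, Or.inr ?_⟩
    · intro h5
      apply hi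
      have h6 : (cj w (hs i))⁻¹ * (g⁻¹ * (cj w (hs i) * g)) = 1 := by
        rw [← h5]; group
      have h7 := inv_mul_eq_one.1 h6
      calc g * cj w (hs i) = g * (g⁻¹ * (cj w (hs i) * g)) := by rw [← h7]
        _ = cj w (hs i) * g := by group
    · have h5 := hwb.cj (hWb _ (h1 i))
      exact (((h5.inv.mul hgb.inv).mul h5).mul hgb).mono (by omega)
    · have h5 := comm_supp (cj w (hs i)) g (D i) (hD1 i) (hD2 i) (hD3 i) (hF i) (fun p hp =>
        hfix p (by rw [hE]; exact mem_union_right _ (mem_biUnion.2 ⟨i, mem_univ _, hp⟩)))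
      rw [hsup] at h5
      exact h5

/-- iterated commutator steps -/
theorem citer {n : ℕ} (hn : 2 ≤ n) {A : Set (Perm (Fin n))} {W : Perm (Fin n) → ℝ} {R L : ℕ}
    (hW : Mixing n 3 W) (hWb : ∀ h, W h ≠ 0 → InBall A R h) (X : Finset (Perm (Fin n)))
    (hXb : ∀ x ∈ X, InBall A L x) (m k : ℕ) (hm1 : 1 ≤ m) (hmn : 5 * m ≤ n)
    (hk : 5 * ((n : ℝ) / m) ≤ (6 / 5) ^ k)
    (hX : n ^ ((k + 1) * m) * 2 ^ (n * k) < X.card)
    (a : Perm (Fin n)) (ha : InBall A 1 a) (ha1 : a ≠ 1) (s : ℕ) :
    ∃ u : Perm (Fin n), u ≠ 1 ∧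
      InBall A (2 ^ s * (1 + 4 * R + 4 * L) - (4 * R + 4 * L)) u ∧
      (5 * u.support.card ≤ n ∨ u.support.card + s * (m - 1) ≤ n) := by
  induction s with
  | zero =>
      refine ⟨a, ha1, ha.mono (by omega), Or.inr ?_⟩
      have := card_le_univ a.support
      rw [Fintype.card_fin] at this
      omega
  | succ s ih =>
      obtain ⟨u, hu1, hub, hu⟩ := ih
      have h5 : 1 ≤ 2 ^ s := Nat.one_le_pow _ _ (by omega)
      have h6 : 1 * (1 + 4 * R + 4 * L) ≤ 2 ^ s * (1 + 4 * R + 4 * L) :=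
        Nat.mul_le_mul_right _ h5
      have h7 : 2 ^ (s + 1) * (1 + 4 * R + 4 * L) = 2 * (2 ^ s * (1 + 4 * R + 4 * L)) := by ring
      by_cases h100 : 5 * u.support.card ≤ n
      · exact ⟨u, hu1, hub.mono (by omega), Or.inl h100⟩
      · have hu' : u.support.card + s * (m - 1) ≤ n := by
          rcases hu with hu | hu
          · exact absurd hu h100
          · exact hu
        obtain ⟨v, hv1, hvb, hv⟩ := cstep hn hW hWb X hXb m k hm1 (by omega) hk hX u hub
          (by omega) (by omega)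
        refine ⟨v, hv1, hvb.mono (by omega), ?_⟩
        rcases hv with hv | hv
        · exact Or.inl hv
        · right
          have h8 : (s + 1) * (m - 1) = s * (m - 1) + (m - 1) := by ring
          rw [h8]; omega

/-- a short nonidentity element of small support -/
theorem small {n : ℕ} (hn : 2 ≤ n) {A : Set (Perm (Fin n))} {W : Perm (Fin n) → ℝ} {R L : ℕ}
    (hW : Mixing n 3 W) (hWb : ∀ h, W h ≠ 0 → InBall A R h) (X : Finset (Perm (Fin n)))
    (hXb : ∀ x ∈ X, InBall A L x) (m k s : ℕ) (hm1 : 1 ≤ m) (hmn : 5 * m ≤ n)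
    (hk : 5 * ((n : ℝ) / m) ≤ (6 / 5) ^ k)
    (hX : n ^ ((k + 1) * m) * 2 ^ (n * k) < X.card)
    (a : Perm (Fin n)) (ha : InBall A 1 a) (ha1 : a ≠ 1) (hs : n ≤ s * (m - 1)) :
    ∃ u : Perm (Fin n), u ≠ 1 ∧ InBall A (2 ^ s * (1 + 4 * R + 4 * L)) u ∧
      5 * u.support.card ≤ n := by
  obtain ⟨u, h1, h2, h3⟩ := citer hn hW hWb X hXb m k hm1 hmn hk hX a ha ha1 s
  exact ⟨u, h1, h2.mono (by omega), by omega⟩

end Pool.Agent.SymDiam.LB
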